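import Mathlib
import Pool.Agent.P8H82.FF.Stm3

/-!
Project FF (helper82), package SIX, by helper86: a class with invariant not `0`, `1728` comes from
exactly six pairs.
-/

set_option autoImplicit false

namespace Pool.Agent.P8H86.FF

open NumberField IsDedekindDomain
open Pool.Agent.P8H82.FF (Tw rp crv Ok S_SIX)
open Pool.Agent.Y729.AH (EE Pm Rt Iso cl pm_EE pm_change cl_of cl_eq)

noncomputable section

variable {K : Type} [Field K]

/-- the class of a nonzero element -/
def tw (a : K) : Tw K := open Classical in if h : a ≠ 0 then QuotientGroup.mk (Units.mk0 a h) else 1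

lemma rp_ne (d : Tw K) : rp d ≠ 0 := Units.ne_zero _

lemma tw_eq {b : K} (hb : b ≠ 0) : tw b = (QuotientGroup.mk (Units.mk0 b hb) : Tw K) := by
  unfold tw
  rw [dif_pos hb]

lemma tw_rp (d : Tw K) : tw (rp d) = d := by
  rw [tw_eq (rp_ne d)]
  have h1 : Units.mk0 (rp d) (rp_ne d) = Quotient.out d := by
    ext; rfl
  rw [h1]
  exact Quotient.out_eq' d

lemma tw_mul_sq {a g : K} (ha : a ≠ 0) (hg : g ≠ 0) : tw (g ^ 2 * a) = tw a := by
  rw [tw_eq (mul_ne_zero (pow_ne_zero 2 hg) ha), tw_eq ha]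
  refine QuotientGroup.eq.2 ?_
  refine ⟨(Units.mk0 g hg)⁻¹, ?_⟩
  ext
  simp only [powMonoidHom_apply, Units.val_pow_eq_pow_val, Units.val_inv_eq_inv_val,
    Units.val_mk0, Units.val_mul]
  field_simp

lemma rp_tw {a : K} (ha : a ≠ 0) : ∃ g : K, g ≠ 0 ∧ rp (tw a) = a * g ^ 2 := by
  have h1 : tw (rp (tw a)) = tw a := tw_rp _
  have h0 := rp_ne (tw a)
  have h2 : (QuotientGroup.mk (Units.mk0 a ha) : Tw K) =
      QuotientGroup.mk (Units.mk0 (rp (tw a)) h0) := by
    rw [← tw_eq h0, ← tw_eq ha, h1]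
  obtain ⟨g, hg⟩ := QuotientGroup.eq.1 h2
  refine ⟨g, g.ne_zero, ?_⟩
  have h3 := congrArg (fun u : Kˣ => (u : K)) hg
  simp only [powMonoidHom_apply, Units.val_pow_eq_pow_val, Units.val_inv_eq_inv_val,
    Units.val_mk0, Units.val_mul] at h3
  rw [h3]
  field_simp

variable [CharZero K]

lemma rt_EE {a b x : K} : Rt (EE a b) x ↔ x = 0 ∨ x = a ∨ x = b := by
  have h1 : Rt (EE a b) x ↔ 4 * (x * (x - a) * (x - b)) = 0 := by
    unfold Rt EE WeierstrassCurve.b₂ WeierstrassCurve.b₄ WeierstrassCurve.b₆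
    constructor
    · intro h; linear_combination h
    · intro h; linear_combination h
  rw [h1]
  have h4 : (4 : K) ≠ 0 := by norm_num
  simp only [mul_eq_zero, h4, false_or, sub_eq_zero, or_assoc]

/-- the six pairs of differences -/
lemma pm_six {δ l a b : K} (hδ : δ ≠ 0) (h0 : l ≠ 0) (h1 : l ≠ 1) :
    Pm (EE δ (δ * l)) a b ↔ (a = δ ∧ b = δ * l) ∨ (a = δ * l ∧ b = δ) ∨
      (a = -δ ∧ b = δ * l - δ) ∨ (a = δ * l - δ ∧ b = -δ) ∨ (a = -(δ * l) ∧ b = δ - δ * l) ∨
      (a = δ - δ * l ∧ b = -(δ * l)) := by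
  have hl : δ * l ≠ 0 := mul_ne_zero hδ h0
  have hd : δ * l ≠ δ := fun h => h1 (mul_left_cancel₀ hδ (by rw [h, mul_one]))
  constructor
  · rintro ⟨ha, hb, hab, x, e0, e1, e2⟩
    rw [rt_EE] at e0 e1 e2
    rcases e0 with e0 | e0 | e0 <;> rcases e1 with e1 | e1 | e1 <;>
      rcases e2 with e2 | e2 | e2
    all_goals first
      | (exfalso; apply ha; linear_combination e1 - e0)
      | (exfalso; apply hb; linear_combination e2 - e0)
      | (exfalso; apply hab; linear_combination e1 - e2)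
      | (left; exact ⟨by linear_combination e1 - e0, by linear_combination e2 - e0⟩)
      | (right; left; exact ⟨by linear_combination e1 - e0, by linear_combination e2 - e0⟩)
      | (right; right; left
         exact ⟨by linear_combination e1 - e0, by linear_combination e2 - e0⟩)
      | (right; right; right; left
         exact ⟨by linear_combination e1 - e0, by linear_combination e2 - e0⟩)
      | (right; right; right; right; left
         exact ⟨by linear_combination e1 - e0, by linear_combination e2 - e0⟩)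
      | (right; right; right; right; right
         exact ⟨by linear_combination e1 - e0, by linear_combination e2 - e0⟩)
  · have hδ' : -δ ≠ 0 := neg_ne_zero.2 hδ
    have hl' : -(δ * l) ≠ 0 := neg_ne_zero.2 hl
    have hd1 : δ * l - δ ≠ 0 := sub_ne_zero.2 hd
    have hd2 : δ - δ * l ≠ 0 := sub_ne_zero.2 hd.symm
    rintro (⟨rfl, rfl⟩ | ⟨rfl, rfl⟩ | ⟨rfl, rfl⟩ | ⟨rfl, rfl⟩ | ⟨rfl, rfl⟩ | ⟨rfl, rfl⟩)
    · exact ⟨hδ, hl, hd.symm, 0, rt_EE.2 (by simp), rt_EE.2 (by simp), rt_EE.2 (by simp)⟩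
    · exact ⟨hl, hδ, hd, 0, rt_EE.2 (by simp), rt_EE.2 (by simp), rt_EE.2 (by simp)⟩
    · exact ⟨hδ', hd1, fun h => hl (by linear_combination -h), δ, rt_EE.2 (by simp),
        rt_EE.2 (by simp), rt_EE.2 (by right; right; ring)⟩
    · exact ⟨hd1, hδ', fun h => hl (by linear_combination h), δ, rt_EE.2 (by simp),
        rt_EE.2 (by right; right; ring), rt_EE.2 (by simp)⟩
    · exact ⟨hl', hd2, fun h => hδ (by linear_combination -h), δ * l, rt_EE.2 (by simp),
        rt_EE.2 (by simp), rt_EE.2 (by right; left; ring)⟩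
    · exact ⟨hd2, hl', fun h => hδ (by linear_combination h), δ * l, rt_EE.2 (by simp),
        rt_EE.2 (by right; left; ring), rt_EE.2 (by simp)⟩

/-- the six parameters are different -/
lemma par_inj {l : K} (h0 : l ≠ 0) (h1 : l ≠ 1) (hm : l ≠ -1) (h2 : l ≠ 2) (hh : 2 * l ≠ 1)
    (hq : l ^ 2 - l + 1 ≠ 0) :
    Function.Injective ![l, 1 / l, 1 - l, 1 / (1 - l), (l - 1) / l, l / (l - 1)] := by
  have d1 : 1 - l ≠ 0 := sub_ne_zero.2 h1.symm
  have d2 : l - 1 ≠ 0 := sub_ne_zero.2 h1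
  have d3 : l + 1 ≠ 0 := fun h => hm (by linear_combination h)
  have d4 : l - 2 ≠ 0 := sub_ne_zero.2 h2
  have d5 : 2 * l - 1 ≠ 0 := sub_ne_zero.2 hh
  have c01 : l ≠ 1 / l := fun h => mul_ne_zero d2 d3 (by field_simp at h; linear_combination h)
  have c02 : l ≠ 1 - l := fun h => d5 (by linear_combination h)
  have c03 : l ≠ 1 / (1 - l) := fun h => hq (by field_simp at h; linear_combination -h)
  have c04 : l ≠ (l - 1) / l := fun h => hq (by field_simp at h; linear_combination h)
  have c05 : l ≠ l / (l - 1) := fun h => mul_ne_zero h0 d4 (by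
    rw [eq_div_iff d2] at h; linear_combination h)
  have c12 : 1 / l ≠ 1 - l := fun h => hq (by
    rw [div_eq_iff h0] at h; linear_combination h)
  have c13 : 1 / l ≠ 1 / (1 - l) := fun h => d5 (by
    rw [div_eq_div_iff h0 d1] at h; linear_combination -h)
  have c14 : 1 / l ≠ (l - 1) / l := fun h => d4 (by
    rw [div_eq_div_iff h0 h0] at h
    have := mul_right_cancel₀ h0 h
    linear_combination -this)
  have c15 : 1 / l ≠ l / (l - 1) := fun h => hq (by
    rw [div_eq_div_iff h0 d2] at h; linear_combination -h)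
  have c23 : 1 - l ≠ 1 / (1 - l) := fun h => mul_ne_zero h0 d4 (by
    rw [eq_div_iff d1] at h; linear_combination h)
  have c24 : 1 - l ≠ (l - 1) / l := fun h => mul_ne_zero d2 d3 (by
    rw [eq_div_iff h0] at h; linear_combination -h)
  have c25 : 1 - l ≠ l / (l - 1) := fun h => hq (by
    rw [eq_div_iff d2] at h; linear_combination -h)
  have c34 : 1 / (1 - l) ≠ (l - 1) / l := fun h => hq (by
    rw [div_eq_div_iff d1 h0] at h; linear_combination h)
  have c35 : 1 / (1 - l) ≠ l / (l - 1) := fun h => mul_ne_zero d2 d3 (by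
    rw [div_eq_div_iff d1 d2] at h; linear_combination h)
  have c45 : (l - 1) / l ≠ l / (l - 1) := fun h => d5 (by
    rw [div_eq_div_iff h0 d2] at h; linear_combination -h)
  intro i j hij
  fin_cases i <;> fin_cases j <;> first
    | rfl
    | (exfalso
       first
        | exact c01 hij | exact c02 hij | exact c03 hij | exact c04 hij | exact c05 hij
        | exact c12 hij | exact c13 hij | exact c14 hij | exact c15 hij | exact c23 hij
        | exact c24 hij | exact c25 hij | exact c34 hij | exact c35 hij | exact c45 hij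
        | exact c01 hij.symm | exact c02 hij.symm | exact c03 hij.symm | exact c04 hij.symm
        | exact c05 hij.symm | exact c12 hij.symm | exact c13 hij.symm | exact c14 hij.symm
        | exact c15 hij.symm | exact c23 hij.symm | exact c24 hij.symm | exact c25 hij.symm
        | exact c34 hij.symm | exact c35 hij.symm | exact c45 hij.symm)

end

noncomputable section

variable {K : Type} [Field K] [NumberField K]

lemma pm_crv (p : K × Tw K) (hp : Ok p) : Pm (crv p) (rp p.2) (rp p.2 * p.1) := by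
  have h0 := rp_ne p.2
  exact pm_EE h0 (mul_ne_zero h0 hp.1) fun h => hp.2
    (mul_left_cancel₀ h0 (by rw [← h, mul_one]))

/-- the pairs of a class are given by the differences of the roots -/
lemma mem_iff (p p' : K × Tw K) :
    (Ok p' ∧ cl (crv p') = cl (crv p)) ↔ ∃ a b, Pm (crv p) a b ∧ p' = (b / a, tw a) := by
  constructor
  · rintro ⟨hp', hc⟩
    obtain ⟨C, hC⟩ := cl_eq.1 hc.symm
    have h1 := pm_change (pm_crv p' hp') C
    rw [hC] at h1
    refine ⟨_, _, h1, ?_⟩
    have hu : (((C.u⁻¹ : Kˣ) : K)) ≠ 0 := Units.ne_zero _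
    have h0 := rp_ne p'.2
    rw [tw_mul_sq h0 hu, tw_rp]
    refine Prod.ext ?_ rfl
    show p'.1 = _
    field_simp
  · rintro ⟨a, b, h, rfl⟩
    have ha := h.1
    have hb := h.2.1
    have hab := h.2.2.1
    have hok : Ok ((b / a, tw a) : K × Tw K) := by
      refine ⟨div_ne_zero hb ha, fun h1 => hab ?_⟩
      have h2 : b / a = 1 := h1
      rw [div_eq_one_iff_eq ha] at h2
      exact h2.symm
    refine ⟨hok, ?_⟩
    obtain ⟨g, hg, hg2⟩ := rp_tw ha
    have h3 := pm_crv _ hok
    refine cl_of h3 h ?_ hg hg2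
    show -(rp (tw a) * (b / a) / rp (tw a)) = -(b / a)
    rw [mul_div_cancel_left₀ _ (rp_ne _)]

theorem six_aux (p : K × Tw K) (hp : Ok p) (hm : p.1 ≠ -1) (h2 : p.1 ≠ 2) (hh : 2 * p.1 ≠ 1)
    (hq : p.1 ^ 2 - p.1 + 1 ≠ 0) :
    {p' : K × Tw K | Ok p' ∧ cl (crv p') = cl (crv p)}.ncard = 6 := by
  obtain ⟨δ, hδe⟩ : ∃ δ, δ = rp p.2 := ⟨_, rfl⟩
  obtain ⟨l, hl⟩ : ∃ l, l = p.1 := ⟨_, rfl⟩
  have hδ : δ ≠ 0 := by rw [hδe]; exact rp_ne _
  have h0 : l ≠ 0 := by rw [hl]; exact hp.1
  have h1 : l ≠ 1 := by rw [hl]; exact hp.2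
  rw [← hl] at hm h2 hh hq
  have d1 : 1 - l ≠ 0 := sub_ne_zero.2 h1.symm
  have d2 : l - 1 ≠ 0 := sub_ne_zero.2 h1
  obtain ⟨par, hpar⟩ : ∃ par : Fin 6 → K,
    par = ![l, 1 / l, 1 - l, 1 / (1 - l), (l - 1) / l, l / (l - 1)] := ⟨_, rfl⟩
  obtain ⟨aa, haa⟩ : ∃ aa : Fin 6 → K,
    aa = ![δ, δ * l, -δ, δ * l - δ, -(δ * l), δ - δ * l] := ⟨_, rfl⟩
  have hinj : Function.Injective (fun i => ((par i, tw (aa i)) : K × Tw K)) := by
    intro i j hij
    have := congrArg Prod.fst hij
    rw [hpar] at this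
    exact par_inj h0 h1 hm h2 hh hq this
  have hset : {p' : K × Tw K | Ok p' ∧ cl (crv p') = cl (crv p)} =
      (fun i => ((par i, tw (aa i)) : K × Tw K)) '' Set.univ := by
    ext p'
    rw [Set.mem_ofPred_eq, mem_iff p p']
    have hcrv : crv p = EE δ (δ * l) := by rw [hδe, hl]; rfl
    rw [hcrv]
    simp only [pm_six hδ h0 h1]
    constructor
    · rintro ⟨a, b, h | h | h | h | h | h, rfl⟩ <;> obtain ⟨rfl, rfl⟩ := h
      · refine ⟨0, trivial, Prod.ext ?_ ?_⟩
        · show par 0 = _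
          rw [hpar]; show l = _; field_simp
        · show tw (aa 0) = _
          rw [haa]; rfl
      · refine ⟨1, trivial, Prod.ext ?_ ?_⟩
        · show par 1 = _
          rw [hpar]; show 1 / l = _; field_simp
        · show tw (aa 1) = _
          rw [haa]; rfl
      · refine ⟨2, trivial, Prod.ext ?_ ?_⟩
        · show par 2 = _
          rw [hpar]; show 1 - l = _; field_simp; ring
        · show tw (aa 2) = _
          rw [haa]; rfl
      · refine ⟨3, trivial, Prod.ext ?_ ?_⟩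
        · show par 3 = _
          rw [hpar]; show 1 / (1 - l) = _
          rw [div_eq_div_iff d1 (by rw [← mul_sub_one]; exact mul_ne_zero hδ d2)]; ring
        · show tw (aa 3) = _
          rw [haa]; rfl
      · refine ⟨4, trivial, Prod.ext ?_ ?_⟩
        · show par 4 = _
          rw [hpar]; show (l - 1) / l = _
          rw [div_eq_div_iff h0 (neg_ne_zero.2 (mul_ne_zero hδ h0))]; ring
        · show tw (aa 4) = _
          rw [haa]; rfl
      · refine ⟨5, trivial, Prod.ext ?_ ?_⟩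
        · show par 5 = _
          rw [hpar]; show l / (l - 1) = _
          rw [div_eq_div_iff d2 (by rw [← mul_one_sub]; exact mul_ne_zero hδ d1)]; ring
        · show tw (aa 5) = _
          rw [haa]; rfl
    · rintro ⟨i, -, rfl⟩
      rw [hpar, haa]
      have e3 : δ * l - δ ≠ 0 := by rw [← mul_sub_one]; exact mul_ne_zero hδ d2
      have e5 : δ - δ * l ≠ 0 := by rw [← mul_one_sub]; exact mul_ne_zero hδ d1
      have e4 : -(δ * l) ≠ 0 := neg_ne_zero.2 (mul_ne_zero hδ h0)
      fin_cases i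
      · refine ⟨δ, δ * l, Or.inl ⟨rfl, rfl⟩, Prod.ext ?_ rfl⟩
        show l = _; field_simp
      · refine ⟨δ * l, δ, Or.inr (Or.inl ⟨rfl, rfl⟩), Prod.ext ?_ rfl⟩
        show 1 / l = _; field_simp
      · refine ⟨-δ, δ * l - δ, Or.inr (Or.inr (Or.inl ⟨rfl, rfl⟩)), Prod.ext ?_ rfl⟩
        show 1 - l = _; field_simp; ring
      · refine ⟨δ * l - δ, -δ, Or.inr (Or.inr (Or.inr (Or.inl ⟨rfl, rfl⟩))), Prod.ext ?_ rfl⟩
        show 1 / (1 - l) = _
        rw [div_eq_div_iff d1 e3]; ring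
      · refine ⟨-(δ * l), δ - δ * l, Or.inr (Or.inr (Or.inr (Or.inr (Or.inl ⟨rfl, rfl⟩)))),
          Prod.ext ?_ rfl⟩
        show (l - 1) / l = _
        rw [div_eq_div_iff h0 e4]; ring
      · refine ⟨δ - δ * l, -(δ * l), Or.inr (Or.inr (Or.inr (Or.inr (Or.inr ⟨rfl, rfl⟩)))),
          Prod.ext ?_ rfl⟩
        show l / (l - 1) = _
        rw [div_eq_div_iff d2 e5]; ring
  rw [hset, Set.ncard_image_of_injective _ hinj, Set.ncard_univ, Nat.card_fin]

end

theorem six : S_SIX := fun _ _ _ p hp hm h2 hh hq => six_aux p hp hm h2 hh hq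

end Pool.Agent.P8H86.FF
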